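import Mathlib

/-!
# The partition of the points by the class of `w ^ ((Q - 1) / n)`
-/

set_option autoImplicit false

open Polynomial

namespace Pool.Agent.Helper85.RC

/-- finitely many `x` with `x ^ Q = x` -/
theorem frob_finite {O : Type} [Field O] {Q : ℕ} (hQ : 1 < Q) : {x : O | x ^ Q = x}.Finite := by
  refine (Polynomial.finite_setOfPred_isRoot (FiniteField.X_pow_card_sub_X_ne_zero O hQ)).subset ?_
  intro x hx
  show IsRoot _ x
  rw [IsRoot.def, eval_sub, eval_pow, eval_X, sub_eq_zero]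
  exact hx

/-- the partition, for any condition `E` on the points -/
theorem part {O : Type} [Field O] {Q n : ℕ} (hn : 0 < n) (hQ : 1 < Q) (hnQ : n ∣ Q - 1) {ζ : O}
    (hζ : IsPrimitiveRoot ζ n) (E : O × O × O → Prop) :
    ∑ a ∈ Finset.range n, Nat.card {z : O × O × O // z.1 ^ Q = z.1 ∧ z.2.1 ^ Q = z.2.1 ∧ z.2.2 ^ Q = z.2.2 ∧
      z.2.2 ^ ((Q - 1) / n) = ζ ^ a ∧ E z} =
    Nat.card {z : O × O × O // z.1 ^ Q = z.1 ∧ z.2.1 ^ Q = z.2.1 ∧ z.2.2 ^ Q = z.2.2 ∧ z.2.2 ≠ 0 ∧ E z} := by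
  classical
  have : NeZero n := ⟨hn.ne'⟩
  obtain ⟨m, hm⟩ : ∃ m : ℕ, m = (Q - 1) / n := ⟨_, rfl⟩
  have hmn : m * n = Q - 1 := by rw [hm]; exact Nat.div_mul_cancel hnQ
  have hm0 : m ≠ 0 := by
    rintro rfl
    omega
  rw [← hm]
  obtain ⟨F, hF⟩ : ∃ F : Finset O, ∀ x, x ∈ F ↔ x ^ Q = x :=
    ⟨(frob_finite hQ).toFinset, fun x => by rw [Set.Finite.mem_toFinset]; rfl⟩
  have hmem : ∀ z : O × O × O, z ∈ F ×ˢ F ×ˢ F ↔ z.1 ^ Q = z.1 ∧ z.2.1 ^ Q = z.2.1 ∧ z.2.2 ^ Q = z.2.2 := by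
    intro z
    rw [Finset.mem_product, Finset.mem_product, hF, hF, hF]
  have h1 : Nat.card {z : O × O × O // z.1 ^ Q = z.1 ∧ z.2.1 ^ Q = z.2.1 ∧ z.2.2 ^ Q = z.2.2 ∧ z.2.2 ≠ 0 ∧ E z} =
      ((F ×ˢ F ×ˢ F).filter (fun z => z.2.2 ≠ 0 ∧ E z)).card := by
    apply Nat.subtype_card
    intro z
    rw [Finset.mem_filter, hmem]
    tauto
  have h2 : ∀ a : ℕ, Nat.card {z : O × O × O // z.1 ^ Q = z.1 ∧ z.2.1 ^ Q = z.2.1 ∧ z.2.2 ^ Q = z.2.2 ∧
      z.2.2 ^ m = ζ ^ a ∧ E z} = ((F ×ˢ F ×ˢ F).filter (fun z => z.2.2 ^ m = ζ ^ a ∧ E z)).card := by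
    intro a
    apply Nat.subtype_card
    intro z
    rw [Finset.mem_filter, hmem]
    tauto
  rw [h1, Finset.sum_congr rfl fun a _ => h2 a, ← Finset.card_biUnion]
  · congr 1
    ext z
    rw [Finset.mem_biUnion]
    constructor
    · rintro ⟨a, ha, hz⟩
      rw [Finset.mem_filter] at hz ⊢
      refine ⟨hz.1, fun h0 => ?_, hz.2.2⟩
      have h3 := hz.2.1
      rw [h0, zero_pow hm0] at h3
      exact pow_ne_zero a (hζ.ne_zero hn.ne') h3.symm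
    · intro hz
      rw [Finset.mem_filter] at hz
      have h3 := ((hmem z).1 hz.1).2.2
      have h4 : z.2.2 ^ (Q - 1) = 1 := by
        have h5 : z.2.2 ^ (Q - 1) * z.2.2 = 1 * z.2.2 := by
          rw [← pow_succ, Nat.sub_add_cancel hQ.le, h3, one_mul]
        exact mul_right_cancel₀ hz.2.1 h5
      have h5 : (z.2.2 ^ m) ^ n = 1 := by rw [← pow_mul, hmn, h4]
      obtain ⟨a, ha, hza⟩ := hζ.eq_pow_of_pow_eq_one h5
      exact ⟨a, Finset.mem_range.2 ha, Finset.mem_filter.2 ⟨hz.1, hza.symm, hz.2.2⟩⟩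
  · intro a ha b hb hab
    refine Finset.disjoint_left.2 ?_
    intro z hz hz'
    have hz1 := Finset.mem_filter.1 hz
    have hz2 := Finset.mem_filter.1 hz'
    have h3 : ζ ^ a = ζ ^ b := hz1.2.1.symm.trans hz2.2.1
    exact hab (hζ.pow_inj (Finset.mem_range.1 (by simpa using ha)) (Finset.mem_range.1 (by simpa using hb)) h3)

end Pool.Agent.Helper85.RC
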