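import Pool.Agent.Helper9.RC.Defs
import Pool.Agent.Helper85.RC.Part

/-!
# Block (P): the classes partition the points
-/

set_option autoImplicit false

open Polynomial
open Pool.Agent.Helper9.RC

namespace Pool.Agent.Helper85.RC

/-- (P) the partition of the points -/
theorem sum_classCount {O : Type} [Field O] {Q n : ℕ} (hn : 0 < n) (hQ : 1 < Q) (hnQ : n ∣ Q - 1) {ζ : O}
    (hζ : IsPrimitiveRoot ζ n) (A B : O[X]) :
    ∑ a ∈ Finset.range n, classCount Q n ζ a A B = surfCount Q A B :=
  part hn hQ hnQ hζ (fun z => z.2.1 ^ 2 = z.1 ^ 3 + A.eval z.2.2 * z.1 + B.eval z.2.2)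

end Pool.Agent.Helper85.RC
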